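import Pool.Agent.Lib.MP_688fd0_co.ASY.Iface3
import Pool.Agent.Lib.MP_688fd0_co.ASY.H85.LadderDefs

/-!
TUBE: module statements (helper83, proof by helper85 and helper83).  Proofs: TB/Blueprint.md.
`h x = G.dist (γ 0) x` is the height of `x`; `B` is an upper bound for the size of a level, `L = (60 B + 200) w` is the
length of a cell of a ladder.
-/

set_option autoImplicit false

namespace Pool.Agent.Lib.MP_688fd0_co.ASY

open Classical
open Pool.Agent.Lib.MP_688fd0_co.LP (IsP Conn Cyc Symm cay)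
open Pool.Agent.Lib.MP_688fd0_co.LIN
open Pool.Agent.Lib.MP_688fd0_co.ASY.H85 (Ladder Mid JoinStatement)

universe u

/-- slab: the vertices of `om` with height in `[a, b]` -/
noncomputable def sl {V : Type u} [Fintype V] (G : SimpleGraph V) (γ : ℕ → V) (w D a b : ℕ) : Finset V :=
  (om G γ w D).filter (fun x => a ≤ G.dist (γ 0) x ∧ G.dist (γ 0) x ≤ b)

/-- `X` is a cut of the slab `[a, b]`: it meets every walk inside the slab from height `a` to height `b`. -/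
def IsCut {V : Type u} [Fintype V] (G : SimpleGraph V) (γ : ℕ → V) (w D a b : ℕ) (X : Finset V) : Prop :=
  X ⊆ sl G γ w D a b ∧ ∀ x y, G.dist (γ 0) x = a → G.dist (γ 0) y = b →
    ¬ Conn G ((↑(sl G γ w D a b) : Set V) \ ↑X) x y

/-- `Y` separates the balls of radius `4 w` about `c` and `c'` inside the lens. Invariant under automorphisms. -/
def Sep {V : Type u} [Fintype V] (G : SimpleGraph V) (w : ℕ) (c c' : V) (Y : Finset V) : Prop :=
  ∀ x y, G.dist c x ≤ 4 * w → G.dist c' y ≤ 4 * w →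
    ¬ Conn G ({v | G.dist c v + G.dist c' v ≤ G.dist c c' + 6 * w} \ (↑Y : Set V)) x y

/-- CROSS: a walk inside a slab from height `<= a` to height `>= b` contains a walk inside `[a, b]`. -/
def CrossStatement : Prop := ∀ (V : Type u) [Fintype V] (G : SimpleGraph V) (r w D : ℕ) (γ : ℕ → V),
  OneDim G r w D γ → ∀ (a₀ b₀ a b : ℕ) (X : Set V) (x y : V), a₀ ≤ a → a ≤ b → b ≤ b₀ →
  Conn G ((↑(sl G γ w D a₀ b₀) : Set V) \ X) x y → G.dist (γ 0) x ≤ a → b ≤ G.dist (γ 0) y →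
  ∃ x' y', G.dist (γ 0) x' = a ∧ G.dist (γ 0) y' = b ∧ Conn G ((↑(sl G γ w D a b) : Set V) \ X) x' y' ∧
    Conn G ((↑(sl G γ w D a₀ b₀) : Set V) \ X) x x' ∧ Conn G ((↑(sl G γ w D a₀ b₀) : Set V) \ X) y' y

/-- NEAR: points of `om` are close to the geodesic; slabs are connected up to `w`; balls about points of the geodesic lie
in `om`; neighbours of slab vertices. -/
def NearStatement : Prop := ∀ (V : Type u) [Fintype V] (G : SimpleGraph V) (r w D : ℕ) (γ : ℕ → V),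
  OneDim G r w D γ →
  (∀ x ∈ om G γ w D, G.dist (γ 0) x ≤ D ∧ G.dist x (γ (G.dist (γ 0) x)) ≤ 2 * w) ∧
  (∀ t ≤ D, G.dist (γ 0) (γ t) = t) ∧
  (∀ t, 15 * w ≤ t → t + 15 * w ≤ D → γ t ∈ om G γ w D) ∧
  (∀ t s x, 20 * w + s ≤ t → t + s + 20 * w ≤ D → G.dist (γ t) x ≤ s →
    x ∈ om G γ w D ∧ t ≤ G.dist (γ 0) x + s ∧ G.dist (γ 0) x ≤ t + s) ∧
  (∀ a b, 20 * w ≤ a → b + 20 * w ≤ D → ∀ x ∈ sl G γ w D a b, ∀ y, G.Adj x y →
    y ∈ om G γ w D ∧ a ≤ G.dist (γ 0) y + 1 ∧ G.dist (γ 0) y ≤ b + 1) ∧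
  (∀ a b, ∀ x ∈ sl G γ w D a b, ∀ y ∈ sl G γ w D a b, Conn G (↑(sl G γ w D (a - w) (b + w)) : Set V) x y) ∧
  (∀ a b, a ≤ b → w * (sl G γ w D a b).card ≤ (b - a + 4 * w) * (32 * bn G r))

/-- LOC: a cut of a slab gives a separation of two balls at distance at most `30 w (|X| + 1)`. -/
def LocStatement : Prop := ∀ (V : Type u) [Fintype V] (G : SimpleGraph V) (r w D : ℕ) (γ : ℕ → V),
  OneDim G r w D γ → ∀ (a b : ℕ) (X : Finset V), 100 * w ≤ a → a ≤ b → b + 100 * w ≤ D → IsCut G γ w D a b X →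
  ∃ c c', 30 * w ≤ G.dist c c' ∧ G.dist c c' ≤ 30 * w * (X.card + 1) ∧ Sep G w c c' X

/-- TRANS: a separation somewhere gives a cut of every long slab. -/
def TransStatement : Prop := ∀ (V : Type u) [Fintype V] (G : SimpleGraph V) (r w D : ℕ) (γ : ℕ → V),
  OneDim G r w D γ → ∀ (c c' : V) (Y : Finset V), 30 * w ≤ G.dist c c' → Sep G w c c' Y →
  ∀ a b, 100 * w ≤ a → a + 2 * G.dist c c' + 100 * w ≤ b → b + 100 * w ≤ D →
  ∃ X, IsCut G γ w D a b X ∧ X.card ≤ Y.card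

/-- uniform cut size -/
structure UCut {V : Type u} [Fintype V] (G : SimpleGraph V) (γ : ℕ → V) (w D B q : ℕ) : Prop where
  pos : 1 ≤ q
  le : q ≤ B
  low : ∀ a b X, 100 * w ≤ a → a ≤ b → b + 100 * w ≤ D → IsCut G γ w D a b X → q ≤ X.card
  high : ∀ a b, 100 * w ≤ a → a + (60 * B + 160) * w ≤ b → b + 100 * w ≤ D → ∃ X, IsCut G γ w D a b X ∧ X.card = q

/-- QEX -/
def QexStatement : Prop := ∀ (V : Type u) [Fintype V] (G : SimpleGraph V) (r w D : ℕ) (γ : ℕ → V),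
  OneDim G r w D γ → 300 * w ≤ D → ∃ q, UCut G γ w D (32 * bn G r) q

/-- a ladder in the tube, with its position -/
structure TLad {V : Type u} [Fintype V] (G : SimpleGraph V) (γ : ℕ → V) (w D q M P L : ℕ) (S R W : ℕ → Finset V)
    (T : ℕ → V → List V) : Prop where
  lad : Ladder G q M S R W T
  posS : ∀ i ≤ M, ∀ x ∈ S i, x ∈ om G γ w D ∧ P + i * L + 20 * w ≤ G.dist (γ 0) x ∧
    G.dist (γ 0) x + 20 * w ≤ P + (i + 1) * L
  posR : ∀ v, Mid S R 0 M v → v ∈ om G γ w D ∧ P ≤ G.dist (γ 0) v ∧ G.dist (γ 0) v ≤ P + (M + 1) * L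
  cover : ∀ v ∈ om G γ w D, P + L ≤ G.dist (γ 0) v → G.dist (γ 0) v + 2 * w ≤ P + M * L → Mid S R 0 M v
  closed : ∀ v, Mid S R 0 M v → ∀ u, G.Adj v u → Mid S R 0 M u ∨ u ∈ S 0 ∨ u ∈ S M

/-- LADEX: ladders exist. -/
def LadexStatement : Prop := ∀ (V : Type u) [Fintype V] (G : SimpleGraph V) (r w D : ℕ) (γ : ℕ → V),
  OneDim G r w D γ → ∀ B q, UCut G γ w D B q → ∀ P M, 1 ≤ M → 100 * w ≤ P →
  P + (M + 1) * ((60 * B + 200) * w) + 100 * w ≤ D →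
  ∃ S R W T, TLad G γ w D q M P ((60 * B + 200) * w) S R W T

/-- RUNSA: the maximal runs of a cycle family outside a set `I`. -/
def RunsaStatement : Prop := ∀ (V : Type u) [Fintype V] (G H : SimpleGraph V) (I : V → Prop), CF G H →
  (∀ v ∈ cov H, I v → ∃ u, H.Reachable v u ∧ ¬ I u) →
  ∃ F : Finset (List V),
    (∀ P ∈ F, P.IsChain H.Adj ∧ P.Nodup ∧ 2 ≤ P.length ∧ (∀ v ∈ P, ¬ I v) ∧
      (∀ v, IsEnd P v → ∃ u, H.Adj v u ∧ I u) ∧ ∀ v ∈ P, ∃ u, H.Reachable v u ∧ I u) ∧ PD F ∧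
    (∀ v, ¬ I v → (∃ u, H.Adj v u ∧ ¬ I u) → (∃ u, H.Reachable v u ∧ I u) → ∃ P ∈ F, v ∈ P)

/-- RUNSB: all cycles that meet the inside of a ladder are replaced by one. -/
def RunsbStatement : Prop := ∀ (V : Type u) [Fintype V] (G H : SimpleGraph V) (c M : ℕ) (S R W : ℕ → Finset V)
  (T : ℕ → V → List V), Ladder G c M S R W T → 2 * c + 6 ≤ M →
  (∀ v, Mid S R 0 M v → ∀ u, G.Adj v u → Mid S R 0 M u ∨ u ∈ S 0 ∨ u ∈ S M) → CF G H →
  (∀ v ∈ cov H, Mid S R 0 M v → ∃ u, H.Reachable v u ∧ ¬ Mid S R 0 M u ∧ u ∉ S 0 ∧ u ∉ S M) →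
  (∃ v ∈ cov H, Mid S R 0 M v) →
  ∃ H' cy, CF G H' ∧ Cyc G cy ∧ (∀ v ∈ cy, v ∈ cov H') ∧
    (∀ v ∈ cov H, ¬ Mid S R 0 M v → v ∉ S 0 → v ∉ S M → v ∈ cov H') ∧
    ncyc H' + (((cov H).filter (fun v => Mid S R 0 M v)).image (cyc H)).card ≤ ncyc H + 1 ∧
    (∃ v ∈ cy, ¬ Mid S R 0 M v) ∧ ((∀ v ∈ cov H, v ∉ S M) → (∃ v ∈ cy, v ∈ S (M - 1)) ∧ ∀ v ∈ cy, v ∉ S M)

/-- HOLE: between two different cycles at minimal distance there is an uncovered zone. -/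
def HoleStatement : Prop := ∀ (V : Type u) [Fintype V] (G H : SimpleGraph V) (r w D : ℕ) (γ : ℕ → V),
  OneDim G r w D γ → ∀ (x y : V) (k s : ℕ), γ k = x → G.dist x y = s → 20 * w + s ≤ k → k + s + 20 * w ≤ D →
  k ≤ G.dist (γ 0) y → x ∈ cov H → y ∈ cov H → ¬ H.Reachable x y →
  (∀ u ∈ cov H, ∀ v ∈ cov H, ¬ H.Reachable u v → s ≤ G.dist u v) →
  ∀ z ∈ om G γ w D, z ∈ cov H → k + 4 * w < G.dist (γ 0) z → G.dist (γ 0) z + 2 * w < k + s → False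

/-- FLIP: the reversed geodesic. -/
def FlipStatement : Prop := ∀ (V : Type u) [Fintype V] (G : SimpleGraph V) (r w D : ℕ) (γ : ℕ → V),
  OneDim G r w D γ → Diam G D → OneDim G r w D (fun i => γ (D - i)) ∧ om G (fun i => γ (D - i)) w D = om G γ w D ∧
  ∀ x ∈ om G γ w D, D ≤ G.dist (γ 0) x + G.dist (γ D) x ∧ G.dist (γ 0) x + G.dist (γ D) x ≤ D + 4 * w

/-- MEET: a long cycle that meets the inside of a ladder has a vertex off the ladder. -/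
def MeetStatement : Prop := ∀ (V : Type u) [Fintype V] (G H : SimpleGraph V) (r w D : ℕ) (γ : ℕ → V),
  OneDim G r w D γ → CF G H → ∀ (q M P L : ℕ) (S R W : ℕ → Finset V) (T : ℕ → V → List V),
  TLad G γ w D q M P L S R W T → 100 * w ≤ P → P + (M + 1) * L + 100 * w ≤ D → ∀ l : ℕ,
  (∀ v ∈ cov H, l ≤ (cyc H v).card) → (sl G γ w D P (P + (M + 1) * L)).card < l →
  ∀ v ∈ cov H, Mid S R 0 M v → ∃ u, H.Reachable v u ∧ ¬ Mid S R 0 M u ∧ u ∉ S 0 ∧ u ∉ S M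

/-- GAIN: a cycle with a vertex outside the inside and a vertex in `S (M - 1)` has many vertices in the slab. -/
def GainStatement : Prop := ∀ (V : Type u) [Fintype V] (G : SimpleGraph V) (r w D : ℕ) (γ : ℕ → V),
  OneDim G r w D γ → ∀ (q M P L : ℕ) (S R W : ℕ → Finset V) (T : ℕ → V → List V),
  TLad G γ w D q M P L S R W T → 100 * w ≤ P → P + (M + 1) * L + 100 * w ≤ D → 3 ≤ M → ∀ cy, Cyc G cy →
  (∃ v ∈ cy, ¬ Mid S R 0 M v) → (∃ v ∈ cy, v ∈ S (M - 1)) → (∀ v ∈ cy, v ∉ S M) → ∀ Y : Finset V, (∀ v ∈ cy, v ∈ Y) →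
  (M - 2) * L ≤ (Y.filter (fun v => Mid S R 0 M v)).card + 1

end Pool.Agent.Lib.MP_688fd0_co.ASY
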